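import Pool.Agent.Lib.MP_c86c76_al.C.M5.Dat

/-!
The checks for the finite group and the twists.
-/

set_option autoImplicit false

namespace Pool.Agent.MQ.M5

open Pool.Agent.MC

theorem t0 : tOk (dvf stp 0 r0) T0 C0 = true := by decide +kernel
theorem t1 : tOk r0 T1 C1 = true := by decide +kernel

theorem b1 : basOk 1 1 0 0 = true := by decide +kernel
theorem b32 : basOk 32 128 0 0 = true := by decide +kernel
theorem b160 : basOk 160 160 0 0 = true := by decide +kernel
theorem b320 : basOk 320 321 0 0 = true := by decide +kernel
theorem b360 : basOk 360 361 0 0 = true := by decide +kernel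

theorem k0 : relOk p3 tab 10 [1, 1] [] 0 = true := by decide +kernel
theorem k1 : relOk p3 tab 10 [1, 32, 1, 32, 32, 32, 32] [32, 1, 32, 32, 32, 32, 1] 0 = true := by decide +kernel
theorem k2 : relOk p3 tab 10 [1, 32, 32, 1, 32, 32, 32] [32, 32, 1, 32, 32, 32, 1] 3 = true := by decide +kernel
theorem k3 : relOk p3 tab 10 [160, 1] [1, 160] 0 = true := by decide +kernel
theorem k4 : relOk p3 tab 10 [32, 32, 32, 32, 32] [] 0 = true := by decide +kernel
theorem k5 : relOk p3 tab 10 [160, 160] [] 0 = true := by decide +kernel
theorem k6 : relOk p3 tab 10 [160, 32, 160, 32] [] 0 = true := by decide +kernel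

theorem kAll : allIn 0 320 kOk = true := by
  have h0 : allIn 0 40 kOk = true := by decide +kernel
  have h1 : allIn 40 40 kOk = true := by decide +kernel
  have h2 : allIn 80 40 kOk = true := by decide +kernel
  have h3 : allIn 120 40 kOk = true := by decide +kernel
  have h4 : allIn 160 40 kOk = true := by decide +kernel
  have h5 : allIn 200 40 kOk = true := by decide +kernel
  have h6 : allIn 240 40 kOk = true := by decide +kernel
  have h7 : allIn 280 40 kOk = true := by decide +kernel
  have c1 : allIn 0 80 kOk = true := jn h0 h1 rfl rfl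
  have c2 : allIn 0 120 kOk = true := jn c1 h2 rfl rfl
  have c3 : allIn 0 160 kOk = true := jn c2 h3 rfl rfl
  have c4 : allIn 0 200 kOk = true := jn c3 h4 rfl rfl
  have c5 : allIn 0 240 kOk = true := jn c4 h5 rfl rfl
  have c6 : allIn 0 280 kOk = true := jn c5 h6 rfl rfl
  have c7 : allIn 0 320 kOk = true := jn c6 h7 rfl rfl
  exact c7

theorem lAll : allIn 320 120 lOk = true := by
  have h0 : allIn 320 40 lOk = true := by decide +kernel
  have h1 : allIn 360 40 lOk = true := by decide +kernel
  have h2 : allIn 400 40 lOk = true := by decide +kernel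
  have c1 : allIn 320 80 lOk = true := jn h0 h1 rfl rfl
  have c2 : allIn 320 120 lOk = true := jn c1 h2 rfl rfl
  exact c2

theorem gwA : (gwL.all fun L => L.all fun s => Nat.blt s 440) = true := by decide +kernel

end Pool.Agent.MQ.M5
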