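import Pool.Agent.Lib.MP_c86c76_al.C.M5.Dat

/-!
The checks of the relations.
-/

set_option autoImplicit false

namespace Pool.Agent.MQ.M5

open Pool.Agent.MC

theorem rbAll : allIn 100 105 rOk = true := by
  have h0 : allIn 100 20 rOk = true := by decide +kernel
  have h1 : allIn 120 20 rOk = true := by decide +kernel
  have h2 : allIn 140 20 rOk = true := by decide +kernel
  have h3 : allIn 160 20 rOk = true := by decide +kernel
  have h4 : allIn 180 20 rOk = true := by decide +kernel
  have h5 : allIn 200 5 rOk = true := by decide +kernel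
  have c1 : allIn 100 40 rOk = true := jn h0 h1 rfl rfl
  have c2 : allIn 100 60 rOk = true := jn c1 h2 rfl rfl
  have c3 : allIn 100 80 rOk = true := jn c2 h3 rfl rfl
  have c4 : allIn 100 100 rOk = true := jn c3 h4 rfl rfl
  have c5 : allIn 100 105 rOk = true := jn c4 h5 rfl rfl
  exact c5

end Pool.Agent.MQ.M5
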