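import Pool.Agent.Lib.MP_c86c76_al.C.M5.K
import Pool.Agent.Lib.MP_c86c76_al.C.M5.Ra
import Pool.Agent.Lib.MP_c86c76_al.C.M5.Rb
import Pool.Agent.Lib.MP_c86c76_al.C.Kt

/-!
The outer classes of the substitutions satisfy the relations of the genus five certificate.
-/

set_option autoImplicit false

noncomputable section

namespace Pool.Agent.MQ.M5

open Pool.Agent.MC Pool.Agent.Lib.MP_c86c76_al

variable {Q : Type} [Group Q] {X : ℕ → Q}

theorem snd3 (M : Mark X 10 r0) : Snd X p3 := by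
  have s := snd_stp (M.out 0 (Or.inl rfl))
  have q : ev X (dvf stp 0 r0) = 1 := by rw [s.dv0, M.rel, inv_one]
  have st : ∀ f, Snd X f → Snd X (pu T0 T1 55 36028797018963967 f) := fun f h =>
    h.pu q t0 M.rel t1 11 rfl (by norm_num)
  exact st _ (st _ (st _ s))

theorem bas (M : Mark X 10 r0) {s t u v : ℕ} (e : basOk s t u v = true) : Gd tab X s :=
  (M.aut (snd3 M) e).imp fun _ h => h.1

theorem krel (M : Mark X 10 r0) : KRel (oc tab X 1) (oc tab X 32) (oc tab X 160) := by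
  have g : ∀ L : List ℕ, (L.all fun s => s ∈ [1, 32, 160]) = true → ∀ s ∈ L, Gd tab X s :=
    fun L h s hs => by
      have := List.all_eq_true.1 h s hs
      simp only [List.mem_cons, List.not_mem_nil, or_false, decide_eq_true_eq] at this
      rcases this with rfl | rfl | rfl
      exacts [bas M b1, bas M b32, bas M b160]
  have e0 := M.eq (snd3 M) (g _ rfl) (g _ rfl) k0
  have e1 := M.eq (snd3 M) (g _ rfl) (g _ rfl) k1
  have e2 := M.eq (snd3 M) (g _ rfl) (g _ rfl) k2
  have e3 := M.eq (snd3 M) (g _ rfl) (g _ rfl) k3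
  have e4 := M.eq (snd3 M) (g _ rfl) (g _ rfl) k4
  have e5 := M.eq (snd3 M) (g _ rfl) (g _ rfl) k5
  have e6 := M.eq (snd3 M) (g _ rfl) (g _ rfl) k6
  simp only [List.map_cons, List.map_nil, List.prod_cons, List.prod_nil, mul_one] at e0 e1 e2 e3 e4 e5 e6
  generalize oc tab X 1 = x at *
  generalize oc tab X 32 = r at *
  generalize oc tab X 160 = s at *
  have i1 : r⁻¹ = r * (r * (r * r)) := inv_eq_of_mul_eq_one_right e4
  have i2 : (r * r)⁻¹ = r * (r * r) := inv_eq_of_mul_eq_one_right (by rw [← e4, mul_assoc])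
  refine ⟨e0, ?_, ?_, e3, by simpa only [pow_succ, pow_zero, one_mul, mul_assoc] using e4, e5,
    by simpa only [mul_assoc] using e6⟩
  · simpa only [xi, pow_one, i1, mul_assoc] using e1
  · simpa only [xi, pow_two, i2, mul_assoc] using e2

theorem kgd (M : Mark X 10 r0) (n : ℕ) : ∀ k < 320, rnk k < n → Gd tab X k ∧
    oc tab X k = kap (oc tab X 1) (oc tab X 32) (oc tab X 160) k := by
  induction n with
  | zero => exact fun _ _ h => absurd h (Nat.not_lt_zero _)
  | succ n ih =>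
    intro k hk hr
    have e := allIn_lt kAll k hk
    simp only [kOk, Bool.or_eq_true, Nat.beq_eq, fc_eq, an_iff, Nat.blt_eq] at e
    rcases e with ((rfl | rfl) | rfl) | ⟨h1, h2, h3, h4, h5, h6⟩
    · exact ⟨bas M b1, by simp [kap, xi]⟩
    · exact ⟨bas M b32, by simp [kap]⟩
    · exact ⟨bas M b160, by simp [kap]⟩
    generalize Nat.land (ln8 tN k) 511 = y at *
    have a := ih _ h1 (by omega)
    have b := ih _ h2 (by omega)
    have c := M.new (snd3 M) (by simp [a.1, b.1]) h6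
    refine ⟨c.1, ?_⟩
    rw [c.2, List.map_cons, List.map_singleton, List.prod_cons, List.prod_singleton, a.2, b.2,
      ← ktSt _ _ _ _ (krel M) _ h1 _ h2, h5]

theorem kmul (M : Mark X 10 r0) {a b : ℕ} (ha : a < 320) (hb : b < 320) :
    oc tab X (mulK a b) = oc tab X a * oc tab X b := by
  rw [(kgd M _ _ (ktabSt.1 a ha b hb).1 (Nat.lt_succ_self _)).2, (kgd M _ _ ha (Nat.lt_succ_self _)).2,
    (kgd M _ _ hb (Nat.lt_succ_self _)).2, ktSt _ _ _ _ (krel M) _ ha _ hb]

theorem kinv (M : Mark X 10 r0) {a : ℕ} (ha : a < 320) : oc tab X (invK a) = (oc tab X a)⁻¹ := by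
  have h0 : oc tab X 0 = 1 := by
    have := kmul M (a := 0) (b := 0) (by norm_num) (by norm_num)
    rw [ktabSt.2.2.1] at this
    exact left_eq_mul.1 this
  have := kmul M ha (ktabSt.2.1 a ha).1
  rw [(ktabSt.2.1 a ha).2.1, h0] at this
  exact eq_inv_of_mul_eq_one_right this.symm

theorem lgd (M : Mark X 10 r0) {s : ℕ} (h1 : 320 ≤ s) (h2 : s < 440) : Gd tab X s ∧
    (∃ a < 320, ∃ b, (b = 320 ∨ b = 360) ∧
      oc tab X s = oc tab X a * (oc tab X b * (oc tab X a)⁻¹)) ∧
    relOk p3 tab 10 [s, s ^^^ 1] [] 0 = true := by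
  have e := (allIn_iff _ _ _).1 lAll s h1 h2
  simp only [lOk, Bool.or_eq_true, Nat.beq_eq, fc_eq, an_iff, Nat.blt_eq] at e
  obtain ⟨a, b, c, d⟩ := e
  generalize Nat.land (ln8 tN s) 511 = y at *
  have gb : Gd tab X (bits (ln8 tN s) 9 511) := by
    rcases b with b | b <;> rw [b]
    exacts [bas M b320, bas M b360]
  have k := M.new (snd3 M) (by
    simp [gb, (kgd M _ _ a (Nat.lt_succ_self _)).1,
      (kgd M _ _ (ktabSt.2.1 _ a).1 (Nat.lt_succ_self _)).1]) c
  refine ⟨k.1, ⟨_, a, _, b, ?_⟩, d⟩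
  rw [k.2, ← kinv M a]
  simp

theorem gd (M : Mark X 10 r0) {s : ℕ} (h : s < 440) : Gd tab X s := by
  rcases Nat.lt_or_ge s 320 with h1 | h1
  exacts [(kgd M _ _ h1 (Nat.lt_succ_self _)).1, (lgd M h1 h).1]

theorem xor_lt : ∀ s < 440, 320 ≤ s → 320 ≤ s ^^^ 1 ∧ s ^^^ 1 < 440 := by decide +kernel

theorem sinv_oc (M : Mark X 10 r0) {s : ℕ} (h : s < 440) :
    sinv s < 440 ∧ oc tab X (sinv s) = (oc tab X s)⁻¹ := by
  unfold sinv
  cases e : Nat.blt s 320
  · have h1 : 320 ≤ s := Nat.le_of_not_lt fun a => by simp [Nat.blt_eq ▸ a] at e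
    have h2 := xor_lt s h h1
    have := M.eq (snd3 M) (by simp [gd M h, gd M h2.2]) (by simp) (lgd M h1 h).2.2
    exact ⟨h2.2, eq_inv_of_mul_eq_one_right (by simpa using this)⟩
  · have h1 : s < 320 := Nat.blt_eq ▸ e
    exact ⟨(ktabSt.2.1 s h1).1.trans (by norm_num), kinv M h1⟩

/-- All codes are in range. -/
def Rg (L : List ℕ) : Prop := ∀ s ∈ L, s < 440

/-- The product of the classes. -/
def pr (X : ℕ → Q) (L : List ℕ) : Out Q := (L.map (oc tab X)).prod

theorem pr_cons (s : ℕ) (L : List ℕ) : pr X (s :: L) = oc tab X s * pr X L := rfl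

theorem pr_app (A B : List ℕ) : pr X (A ++ B) = pr X A * pr X B := by simp [pr]

theorem Rg.app {A B : List ℕ} (a : Rg A) (b : Rg B) : Rg (A ++ B) := fun s h =>
  (List.mem_append.1 h).elim (a s) (b s)

theorem Rg.cons {s : ℕ} {B : List ℕ} (a : s < 440) (b : Rg B) : Rg (s :: B) := fun t h =>
  (List.mem_cons.1 h).elim (fun e => e ▸ a) (b t)

theorem linv_pr (M : Mark X 10 r0) {L : List ℕ} (h : Rg L) :
    Rg (linv L) ∧ pr X (linv L) = (pr X L)⁻¹ := by
  have key : ∀ A, Rg A → Rg (L.foldl (fun a s => sinv s :: a) A) ∧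
      pr X (L.foldl (fun a s => sinv s :: a) A) = (pr X L)⁻¹ * pr X A := by
    induction L with
    | nil => exact fun A a => ⟨a, by simp [pr]⟩
    | cons s t ih =>
      intro A a
      have b := sinv_oc M (h s List.mem_cons_self)
      have c := ih (fun x hx => h x (List.mem_cons_of_mem _ hx)) _ (Rg.cons b.1 a)
      exact ⟨c.1, by rw [List.foldl_cons, c.2, pr_cons, pr_cons, b.2, mul_inv_rev, mul_assoc]⟩
  simpa [pr, linv] using key [] (fun _ h => absurd h List.not_mem_nil)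

theorem gw_out {j : ℕ} (h : 69 ≤ j) : gw j = [] := List.getD_eq_default _ _ h

theorem rg_gw (j : ℕ) : Rg (gw j) := fun s hs => by
  rcases Nat.lt_or_ge j gwL.length with h | h
  · rw [gw, List.getD_eq_getElem _ _ h] at hs
    exact Nat.blt_eq ▸ List.all_eq_true.1 (List.all_eq_true.1 gwA _ (List.getElem_mem h)) s hs
  · rw [gw_out h] at hs
    exact absurd hs List.not_mem_nil

/-- The finite group. -/
def kp5 (X : ℕ → Q) (k : ℕ) : Out Q := if k < 320 then oc tab X k else 1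

/-- The points. -/
def gp5 (X : ℕ → Q) (j : ℕ) : Out Q := pr X (gw j)

theorem wz_pr (M : Mark X 10 r0) {p : ℕ} (h : pK p < 320) :
    Rg (wz p) ∧ pr X (wz p) = dd (kp5 X) (gp5 X) p := by
  have a := linv_pr M (rg_gw (pI p))
  refine ⟨a.1.app (Rg.cons (by omega) (rg_gw _)), ?_⟩
  rw [wz, pr_app, a.2, pr_cons, dd, MC.zz, kp5, if_pos h, mul_assoc]
  rfl

theorem model (M : Mark X 10 r0) : MC.Model (kp5 X) (gp5 X) datM where
  mul a ha b hb := by
    have := (ktabSt.1 a ha b hb).1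
    unfold kp5
    rw [if_pos (show a < 320 from ha), if_pos (show b < 320 from hb)]
    exact (if_pos this).trans (kmul M ha hb)
  kout k h := if_neg (Nat.not_lt.2 h)
  gout j h := by rw [gp5, gw_out h]; rfl
  g0 := rfl
  rel t ht := by
    have e := allIn_lt (jn raAll rbAll rfl rfl : allIn 0 205 rOk = true) t ht
    simp only [rOk, fc_eq, an_iff, Nat.blt_eq, fl_eq] at e
    obtain ⟨ha, hb, hp, hc, e⟩ := e
    refine ⟨ha, hb, ?_⟩
    change dd _ _ (bits (ax5 t) 48 8388607) = kp5 X (dec (ax5 t)).a *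
      pw (dd _ _ (dec (ax5 t)).c) (dec (ax5 t)).e * kp5 X (dec (ax5 t)).b
    generalize dec (ax5 t) = F at *
    generalize bits (ax5 t) 48 8388607 = p at *
    generalize Nat.land (ln8 tR t) 255 = q at e
    have a := wz_pr M hp
    have c := wz_pr M hc
    have c' := linv_pr M c.1
    have d : Rg (cond (Nat.beq F.e 0) (linv (wz F.c)) (wz F.c)) ∧
        pr X (cond (Nat.beq F.e 0) (linv (wz F.c)) (wz F.c)) =
          (pw (dd (kp5 X) (gp5 X) F.c) F.e)⁻¹ := by
      rcases F.e with _ | n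
      · exact ⟨c'.1, c'.2.trans (congrArg _ c.2)⟩
      · exact ⟨c.1, c.2.trans (inv_inv _).symm⟩
    have i := ktabSt.2.1
    have w : Rg (rW p F) := a.1.app (Rg.cons ((i _ hb).1.trans (by norm_num))
      (d.1.app (Rg.cons ((i _ ha).1.trans (by norm_num)) fun _ h => absurd h List.not_mem_nil)))
    have l := linv_pr M (L := (rW p F).drop q) fun s h => w s (List.mem_of_mem_drop h)
    have k : pr X _ = pr X _ := M.eq (snd3 M) (fun s h => gd M (w s (List.mem_of_mem_take h)))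
      (fun s h => gd M (l.1 s h)) e
    rw [l.2, eq_inv_iff_mul_eq_one, ← pr_app, List.take_append_drop, rW, pr_app, pr_cons, pr_app,
      pr_cons, a.2, d.2, kinv M ha, kinv M hb, mul_eq_one_iff_eq_inv] at k
    rw [k, kp5, kp5, if_pos ha, if_pos hb]
    simp [pr, mul_assoc]

theorem oc_mem (M : Mark X 10 r0) {s : ℕ} (h1 : 320 ≤ s) (h2 : s < 440) :
    oc tab X s ∈ Subgroup.closure (Set.range (kp5 X) ∪ Set.range (gp5 X)) := by
  obtain ⟨a, ha, b, hb, e⟩ := (lgd M h1 h2).2.1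
  have k : oc tab X a ∈ Subgroup.closure (Set.range (kp5 X) ∪ Set.range (gp5 X)) :=
    Subgroup.subset_closure (Or.inl ⟨a, if_pos ha⟩)
  rw [e]
  refine mul_mem k (mul_mem (Subgroup.subset_closure (Or.inr ?_)) (inv_mem k))
  rcases hb with rfl | rfl
  exacts [⟨8, mul_one _⟩, ⟨28, mul_one _⟩]

end Pool.Agent.MQ.M5
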